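import Pool.Agent.H27.L1.H23.GZ.Targets5

/-!
Row PWF of the board gz: the power function by orthogonal components.
-/

set_option autoImplicit false

namespace Pool.Agent.H27.L1.H54.GZ

open Pool.Agent.H27.L1.H34.GM Pool.Agent.H27.L1.H34.GZ

theorem sq_cpow {x : ℝ} (hx : 0 < x) (e : ℂ) :
    ((x ^ 2 : ℝ) : ℂ) ^ (e / 2) = (x : ℂ) ^ e := by
  have h2 : (0 : ℝ) < x ^ 2 := by positivity
  have hx' : (x : ℂ) ≠ 0 := by exact_mod_cast hx.ne'
  have h2' : ((x ^ 2 : ℝ) : ℂ) ≠ 0 := by exact_mod_cast h2.ne'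
  rw [Complex.cpow_def_of_ne_zero h2', Complex.cpow_def_of_ne_zero hx', ← Complex.ofReal_log h2.le,
    ← Complex.ofReal_log hx.le, Real.log_pow]
  congr 1
  push_cast
  ring

theorem pf_PWF (hGSM : T_GSM) : T_PWF := by
  intro m mu z hz
  obtain ⟨h0, h1, -, h2, -⟩ := hGSM m z
  have hpos := h2 hz
  have hm : ∀ j : ℕ, j ≤ m → 0 < mnr z j := by
    intro j
    induction j with
    | zero =>
      intro _
      rw [h0]
      exact one_pos
    | succ j ih =>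
      intro hj
      have h3 := h1 ⟨j, hj⟩
      have h4 : mnr z (j + 1) = mnr z j * ‖oc z ⟨j, hj⟩‖ ^ 2 := h3
      rw [h4]
      exact mul_pos (ih (by omega)) (pow_pos (hpos _) 2)
  have hq : ∀ j : Fin m, mnr z ((j : ℕ) + 1) / mnr z (j : ℕ) = ‖oc z j‖ ^ 2 := by
    intro j
    rw [h1 j, mul_div_cancel_left₀ _ (hm j j.2.le).ne']
  have hpw : pw mu z =
      ∏ j, ((‖oc z j‖ : ℝ) : ℂ) ^ (-(mu j) + (2 * ((j : ℕ) + 1 : ℂ) - m - 1) / 2) := by
    unfold pw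
    refine Finset.prod_congr rfl fun j _ => ?_
    rw [hq j, sq_cpow (hpos j)]
  refine ⟨hpw, ?_⟩
  rw [hpw, norm_prod]
  refine Finset.prod_congr rfl fun j _ => ?_
  rw [Complex.norm_cpow_eq_rpow_re_of_pos (hpos j)]
  congr 1
  have h3 : (2 * ((j : ℕ) + 1 : ℂ) - m - 1) / 2 = (((2 * ((j : ℕ) + 1 : ℝ) - m - 1) / 2 : ℝ) : ℂ) := by
    push_cast
    ring
  rw [h3, Complex.add_re, Complex.neg_re, Complex.ofReal_re]
  rfl

end Pool.Agent.H27.L1.H54.GZ
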